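import Pool.Agent.Lib.MP_2306a6_an.Example

/-!
# The sharp bound for the second order term of mappings with parametric representation

The definitions `Cn`, `unitBall`, `Univalent`, `IsLoewnerChain`, `IsNormalFamily`, `S0`, `P2` and
`supNorm` are in `Pool.Agent.Lib.MP_2306a6_an.Defs`.
-/

namespace Pool.Agent.Results.MP_2306a6_an.SecondOrderTermNorm

open Pool.Agent.Lib.MP_2306a6_an

/-- **The sharp bound for the norm of the second order term.** For every `n ≥ 2` the number
`3√3 / 2` is the greatest value of `‖P₂‖` for `f ∈ S⁰(𝔹ⁿ)`. -/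
theorem result : ∀ n : ℕ, 2 ≤ n →
    IsGreatest {x : ℝ | ∃ f ∈ S0 n, supNorm (P2 f) = x} (3 * Real.sqrt 3 / 2) :=
  fun _ hn => isGreatest_second hn

end Pool.Agent.Results.MP_2306a6_an.SecondOrderTermNorm
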